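import Pool.Agent.Helper85.PCP.Stmts

/-! # COMP: the reduction is computable -/

namespace PCP4

theorem comp_replicate {α : Type} [Primcodable α] :
    Primrec₂ (fun (n : ℕ) (a : α) => List.replicate n a) := by
  have h : Primrec (fun p : ℕ × α => (List.range p.1).map (fun _ => p.2)) :=
    Primrec.list_map (Primrec.list_range.comp Primrec.fst) (Primrec.snd.comp Primrec.fst).to₂
  exact h.of_eq fun p => by
    rw [List.map_const', List.length_range]

theorem comp_cd : Primrec₂ cd := by
  have h : Primrec (fun p : ℕ × Bool => (if p.2 = true then 2 else 1) :: List.replicate p.1 0) :=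
    Primrec.list_cons.comp
      (Primrec.ite (Primrec.eq.comp Primrec.snd (Primrec.const true)) (Primrec.const 2)
        (Primrec.const 1))
      (comp_replicate.comp Primrec.fst (Primrec.const 0))
  exact h.of_eq fun p => rfl

theorem comp_nu : Primrec nu :=
  Primrec.nat_add.comp (Primrec.nat_mul.comp (Primrec.const 4) Primrec.id) (Primrec.const 2)

theorem comp_mN (k Q0 : ℕ) : Primrec (mN k Q0) := by
  have h1 : Primrec (nA k Q0) :=
    Primrec.nat_add.comp (Primrec.const 1) (Primrec.nat_mul.comp (Primrec.const (2 + 4 * k))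
      (Primrec.nat_add.comp (Primrec.nat_add.comp (Primrec.const Q0)
        (Primrec.nat_mul.comp (Primrec.const 2) Primrec.id)) (Primrec.const 1)))
  exact Primrec.nat_mul.comp (Primrec.const ((k + 1) * k)) (comp_nu.comp h1)

theorem comp_inst4 : Primrec₂ inst4 := by
  have hm1 : Primrec (fun p : ℕ × List Bool => p.1 - 1) :=
    Primrec.nat_sub.comp Primrec.fst (Primrec.const 1)
  have hc : ∀ x : Bool, Primrec (fun p : ℕ × List Bool => cd (p.1 - 1) x) := fun x =>
    comp_cd.comp hm1 (Primrec.const x)
  have h0 : Primrec (fun p : ℕ × List Bool =>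
      (p.2.flatMap (cd (p.1 - 1))).take ((p.2.length - 1) * p.1 + 1)) := by
    refine Primrec.list_take.comp ?_ ?_
    · exact Primrec.nat_add.comp (Primrec.nat_mul.comp (Primrec.nat_sub.comp
        (Primrec.list_length.comp Primrec.snd) (Primrec.const 1)) Primrec.fst) (Primrec.const 1)
    · exact Primrec.list_flatMap Primrec.snd
        (comp_cd.comp (hm1.comp Primrec.fst) Primrec.snd).to₂
  refine Primrec.fin_curry.2 (Primrec₂.swap (Primrec.fin_curry₁
    (f := fun i (p : ℕ × List Bool) => inst4 p.1 p.2 i) |>.2 ?_))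
  intro i
  fin_cases i
  · exact Primrec.pair h0 (hc true)
  · exact Primrec.pair (Primrec.const [1]) (hc false)
  · exact Primrec.pair (Primrec.const [0]) (hc true)
  · exact Primrec.pair (Primrec.const [0]) (hc false)

theorem st_COMP (hCUN : ST_CUN) : ST_COMP := fun k Q0 q0 qh tab =>
  (comp_inst4.comp (comp_mN k Q0) (hCUN k Q0 q0 qh tab)).to_comp

end PCP4
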