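import Pool.Agent.Helper85.PCP.Stmts

/-! # DDW: the last two symbols of the initial configuration -/

namespace PCP4

theorem st_DDW : ST_DDW := by
  intro k Q0 n hk
  obtain ⟨m, rfl⟩ : ∃ m, k = m + 1 := ⟨k - 1, by omega⟩
  set q := Q0 + 2 * n with hq
  have hlen : ∀ j, ((List.range j).flatMap
      (fun i => List.replicate (m + 1) 0 ++ [sT (m + 1) 0 q (m + 1 - 1 - i)])).length =
      j * (m + 2) := by
    intro j
    induction j with
    | zero => simp
    | succ j ih =>
      rw [List.range_succ, List.flatMap_append, List.length_append, ih]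
      simp
      ring
  have hconf : conf (m + 1) (q, 0, 0) =
      (sh (m + 1) q :: ((List.range m).flatMap
        (fun i => List.replicate (m + 1) 0 ++ [sT (m + 1) 0 q (m + 1 - 1 - i)]) ++
          List.replicate m 0)) ++ [0, sT (m + 1) 0 q 0] := by
    unfold conf blk cps
    rw [List.range_succ, List.flatMap_append, List.replicate_succ']
    simp
  have hl2 : (sh (m + 1) q :: ((List.range m).flatMap
        (fun i => List.replicate (m + 1) 0 ++ [sT (m + 1) 0 q (m + 1 - 1 - i)]) ++
          List.replicate m 0)).length = (m + 1 + 1) * (m + 1) - 1 := by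
    rw [List.length_cons, List.length_append, hlen, List.length_replicate]
    have : (m + 1 + 1) * (m + 1) = m * (m + 2) + m + 1 + 1 := by ring
    omega
  unfold D1
  rw [← hq, hconf, List.take_left' hl2]

end PCP4
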