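import Pool.Agent.Helper85.PCP.Stmts

/-! # DHALT: a halting configuration -/

namespace PCP4

theorem dhalt_blk {k ty q x : ℕ} (hx : x ∈ blk k ty q) : x = 0 ∨ ∃ r < k, x = sT k ty q r := by
  unfold blk at hx
  rw [List.mem_flatMap] at hx
  obtain ⟨i, hi, hx⟩ := hx
  rw [List.mem_append, List.mem_singleton, List.mem_replicate] at hx
  rw [List.mem_range] at hi
  rcases hx with ⟨-, hx⟩ | hx
  · exact Or.inl hx
  · exact Or.inr ⟨k - 1 - i, by omega, hx⟩

theorem dhalt_cps {n x : ℕ} {w : List ℕ} (hx : x ∈ cps n w) : x ∈ w := by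
  unfold cps at hx
  rw [List.mem_flatMap] at hx
  obtain ⟨i, _, hx⟩ := hx
  exact hx

theorem st_DHALT (hDPR : ST_DPR) : ST_DHALT := by
  intro k Q0 q0 qh tab hk c hc
  obtain ⟨h0, h1, h2, h3, -⟩ := hDPR k Q0 q0 qh tab hk c.1
  refine ⟨_, _, rfl, by rw [h1, if_pos hc], ?_⟩
  intro x hx
  rw [List.mem_append, List.mem_append] at hx
  rcases hx with hx | hx | hx
  · rw [(List.mem_replicate.1 hx).2, h2]
    exact Option.some_ne_none _
  · rcases dhalt_blk hx with rfl | ⟨r, hr, rfl⟩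
    · rw [h0]; exact Option.some_ne_none _
    · rw [(h3 r hr).1]; exact Option.some_ne_none _
  · rcases dhalt_blk (dhalt_cps hx) with rfl | ⟨r, hr, rfl⟩
    · rw [h0]; exact Option.some_ne_none _
    · rw [(h3 r hr).2.1]; exact Option.some_ne_none _

end PCP4
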