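import Pool.Agent.Helper85.PCP.Stmts

/-! # DPRE: the loading states -/

namespace PCP4

theorem dpre_even (k Q0 q0 : ℕ) (tab : List (ℕ × Bool × Bool × ℕ)) (i M : ℕ) :
    astep k (dlt k Q0 q0 tab) (Q0 + 2 * (i + 1), 0, M) = (Q0 + 2 * i + 1, M, 0) := by
  unfold astep dlt
  have h1 : ¬ Q0 + 2 * (i + 1) < Q0 := by omega
  have h2 : Q0 + 2 * (i + 1) ≠ Q0 := by omega
  have h3 : (Q0 + 2 * (i + 1) - Q0) % 2 = 0 := by omega
  simp only [h1, h2, h3, if_false, if_true]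
  simp
  omega

theorem dpre_odd (k Q0 q0 : ℕ) (tab : List (ℕ × Bool × Bool × ℕ)) (i M : ℕ) :
    astep k (dlt k Q0 q0 tab) (Q0 + 2 * i + 1, M, 0) = (Q0 + 2 * i, 0, M + 1) := by
  unfold astep dlt
  have h1 : ¬ Q0 + 2 * i + 1 < Q0 := by omega
  have h2 : Q0 + 2 * i + 1 ≠ Q0 := by omega
  have h3 : (Q0 + 2 * i + 1 - Q0) % 2 = 1 := by omega
  simp only [h1, h2, h3, if_false, if_true]
  simp

theorem dpre_last (k Q0 q0 : ℕ) (tab : List (ℕ × Bool × Bool × ℕ)) (M : ℕ) :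
    astep k (dlt k Q0 q0 tab) (Q0, 0, M) = (q0, M, 0) := by
  unfold astep dlt
  simp

theorem dpre_iter (k Q0 q0 : ℕ) (tab : List (ℕ × Bool × Bool × ℕ)) (n : ℕ) :
    ∀ i ≤ n, (astep k (dlt k Q0 q0 tab))^[2 * i] (Q0 + 2 * n, 0, 0) = (Q0 + 2 * (n - i), 0, i) := by
  intro i
  induction i with
  | zero => intro _; simp
  | succ i ih =>
    intro hi
    obtain ⟨j, hj⟩ : ∃ j, n - i = j + 1 := ⟨n - i - 1, by omega⟩
    rw [show 2 * (i + 1) = 2 * i + 1 + 1 by ring, Function.iterate_succ_apply',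
      Function.iterate_succ_apply', ih (by omega), hj, dpre_even, dpre_odd,
      show n - (i + 1) = j by omega]

theorem st_DPRE : ST_DPRE := by
  intro k Q0 q0 qh tab hA n
  refine ⟨?_, ?_⟩
  · rw [Function.iterate_succ_apply', dpre_iter k Q0 q0 tab n n le_rfl, Nat.sub_self, mul_zero,
      add_zero, dpre_last]
  · intro i hi
    have hqh := hA.hqh
    rcases Nat.even_or_odd' i with ⟨j, rfl | rfl⟩
    · rw [dpre_iter k Q0 q0 tab n j (by omega)]
      simp only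
      omega
    · obtain ⟨l, hl⟩ : ∃ l, n - j = l + 1 := ⟨n - j - 1, by omega⟩
      rw [Function.iterate_succ_apply', dpre_iter k Q0 q0 tab n j (by omega), hl, dpre_even]
      simp only
      omega

end PCP4
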